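import Pool.Agent.U485.SM.Stm2

set_option autoImplicit false

/-!
Package CO3 of project HT (second round): the constant of the prime triplets.
-/

open Finset Filter Topology

namespace Pool.Agent.U165.HT.CO3

open Pool.Agent.U485.SM

/-- the local factor -/
noncomputable def f (p : ℕ) : ℝ := (p : ℝ) ^ 2 * (p - 3) / (p - 1) ^ 3

theorem f_nonneg {p : ℕ} (hp : 5 ≤ p) : 0 ≤ f p := by
  have h : (5 : ℝ) ≤ p := by exact_mod_cast hp
  unfold f
  apply div_nonneg
  · apply mul_nonneg (by positivity)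
    linarith
  · apply pow_nonneg
    linarith

theorem f_le {p : ℕ} (hp : 5 ≤ p) : f p ≤ 1 := by
  have h : (5 : ℝ) ≤ p := by exact_mod_cast hp
  unfold f
  rw [div_le_one (by apply pow_pos; linarith)]
  nlinarith

/-- the minorant of the local factor -/
theorem f_ge {t : ℕ} (ht : 4 ≤ t) : ((t : ℝ) - 2) * (t + 2) / (t : ℝ) ^ 2 ≤ f (t + 1) := by
  have h : (4 : ℝ) ≤ t := by exact_mod_cast ht
  unfold f
  push_cast
  rw [show (t : ℝ) + 1 - 3 = t - 2 by ring, show (t : ℝ) + 1 - 1 = t by ring]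
  rw [div_le_div_iff₀ (by positivity) (by positivity)]
  have h2 : 0 ≤ ((t : ℝ) - 2) * t ^ 2 := by
    apply mul_nonneg (by linarith) (by positivity)
  nlinarith

/-- one factor more -/
noncomputable def g (p : ℕ) : ℝ := if p.Prime then f p else 1

theorem K3_eq (y : ℕ) : K3 y = ∏ p ∈ Finset.Icc 5 y, g p := by
  unfold K3
  rw [prod_filter]
  rfl

theorem K3_succ {t : ℕ} (ht : 4 ≤ t) : K3 (t + 1) = K3 t * g (t + 1) := by
  rw [K3_eq, K3_eq, Finset.prod_Icc_succ_top (by omega)]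

theorem K3_small {t : ℕ} (ht : t ≤ 4) : K3 t = 1 := by
  rw [K3_eq, Finset.Icc_eq_empty (by omega), prod_empty]

theorem g_nonneg {p : ℕ} (hp : 5 ≤ p) : 0 ≤ g p := by
  unfold g
  split_ifs
  · exact f_nonneg hp
  · exact zero_le_one

theorem g_le {p : ℕ} (hp : 5 ≤ p) : g p ≤ 1 := by
  unfold g
  split_ifs
  · exact f_le hp
  · exact le_rfl

theorem g_ge {t : ℕ} (ht : 4 ≤ t) : ((t : ℝ) - 2) * (t + 2) / (t : ℝ) ^ 2 ≤ g (t + 1) := by
  unfold g
  split_ifs
  · exact f_ge ht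
  · have h : (4 : ℝ) ≤ t := by exact_mod_cast ht
    rw [div_le_one (by positivity)]
    nlinarith

theorem K3_nonneg (t : ℕ) : 0 ≤ K3 t := by
  rw [K3_eq]
  apply prod_nonneg
  intro p hp
  rw [mem_Icc] at hp
  exact g_nonneg hp.1

theorem K3_anti : Antitone K3 := by
  apply antitone_nat_of_succ_le
  intro t
  rcases Nat.lt_or_ge t 4 with h | h
  · rw [K3_small (by omega), K3_small (by omega)]
  · rw [K3_succ h]
    exact mul_le_of_le_one_right (K3_nonneg t) (g_le (by omega))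

theorem K3_low (t : ℕ) (ht : 4 ≤ t) : 3 / 10 * ((t : ℝ) * (t + 1) / ((t - 2) * (t - 1))) ≤ K3 t := by
  induction t, ht using Nat.le_induction with
  | base =>
    rw [K3_small le_rfl]
    norm_num
  | succ t ht ih =>
    have h : (4 : ℝ) ≤ t := by exact_mod_cast ht
    have h1 : (t : ℝ) - 1 ≠ 0 := by
      have : 0 < (t : ℝ) - 1 := by linarith
      exact this.ne'
    have h2 : (t : ℝ) - 2 ≠ 0 := by
      have : 0 < (t : ℝ) - 2 := by linarith
      exact this.ne'
    have h0 : (t : ℝ) ≠ 0 := by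
      have : 0 < (t : ℝ) := by linarith
      exact this.ne'
    rw [K3_succ ht]
    have e : 3 / 10 * (((t + 1 : ℕ) : ℝ) * (((t + 1 : ℕ) : ℝ) + 1) /
        ((((t + 1 : ℕ) : ℝ) - 2) * (((t + 1 : ℕ) : ℝ) - 1))) =
        3 / 10 * ((t : ℝ) * (t + 1) / ((t - 2) * (t - 1))) * (((t : ℝ) - 2) * (t + 2) / (t : ℝ) ^ 2) := by
      push_cast
      rw [show (t : ℝ) + 1 - 2 = t - 1 by ring, show (t : ℝ) + 1 - 1 = t by ring]
      field_simp
      ring
    rw [e]
    apply mul_le_mul ih (g_ge ht)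
    · apply div_nonneg _ (by positivity)
      apply mul_nonneg <;> linarith
    · exact K3_nonneg t

theorem K3_lower (t : ℕ) : 3 / 10 ≤ K3 t := by
  rcases Nat.lt_or_ge t 4 with h | h
  · rw [K3_small h.le]
    norm_num
  · refine le_trans ?_ (K3_low t h)
    have h : (4 : ℝ) ≤ t := by exact_mod_cast h
    have : (1 : ℝ) ≤ (t : ℝ) * (t + 1) / ((t - 2) * (t - 1)) := by
      rw [le_div_iff₀ (by apply mul_pos <;> linarith)]
      nlinarith
    linarith

theorem K3_tendsto : ∃ C : ℝ, 0 < C ∧ Tendsto K3 atTop (𝓝 C) := by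
  have hb : BddBelow (Set.range K3) := ⟨3 / 10, by rintro _ ⟨t, rfl⟩; exact K3_lower t⟩
  refine ⟨⨅ t, K3 t, ?_, tendsto_atTop_ciInf K3_anti hb⟩
  have : 3 / 10 ≤ ⨅ t, K3 t := le_ciInf K3_lower
  linarith

theorem res26_two : res {0, 2, 6} 2 = 1 := by decide
theorem res26_three : res {0, 2, 6} 3 = 2 := by decide
theorem res46_two : res {0, 4, 6} 2 = 1 := by decide
theorem res46_three : res {0, 4, 6} 3 = 2 := by decide

theorem res26 {p : ℕ} (hp : p.Prime) (h : 5 ≤ p) : res {0, 2, 6} p = 3 := by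
  have h6 : p ≠ 6 := by
    rintro rfl
    revert hp
    decide
  rcases Nat.lt_or_ge p 7 with h7 | h7
  · have : p = 5 := by omega
    subst this
    decide
  · unfold res
    rw [image_insert, image_insert, image_singleton, Nat.mod_eq_of_lt (by omega), Nat.mod_eq_of_lt (by omega),
      Nat.mod_eq_of_lt (by omega)]
    decide

theorem res46 {p : ℕ} (hp : p.Prime) (h : 5 ≤ p) : res {0, 4, 6} p = 3 := by
  have h6 : p ≠ 6 := by
    rintro rfl
    revert hp
    decide
  rcases Nat.lt_or_ge p 7 with h7 | h7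
  · have : p = 5 := by omega
    subst this
    decide
  · unfold res
    rw [image_insert, image_insert, image_singleton, Nat.mod_eq_of_lt (by omega), Nat.mod_eq_of_lt (by omega),
      Nat.mod_eq_of_lt (by omega)]
    decide

theorem Pr_eq {t : ℕ} (ht : 3 ≤ t) : Pr t = insert 2 (insert 3 ((Finset.Icc 5 t).filter Nat.Prime)) := by
  ext p
  unfold Pr
  rw [mem_filter, mem_Icc, mem_insert, mem_insert, mem_filter, mem_Icc]
  constructor
  · rintro ⟨⟨h1, h2⟩, h3⟩
    have h4 := h3.two_le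
    have h5 : p ≠ 4 := by
      rintro rfl
      revert h3
      decide
    by_cases h6 : p = 2
    · exact Or.inl h6
    · by_cases h7 : p = 3
      · exact Or.inr (Or.inl h7)
      · exact Or.inr (Or.inr ⟨⟨by omega, h2⟩, h3⟩)
  · rintro (h | h | ⟨⟨h1, h2⟩, h3⟩)
    · rw [h]
      exact ⟨⟨by norm_num, by omega⟩, Nat.prime_two⟩
    · rw [h]
      exact ⟨⟨by norm_num, by omega⟩, Nat.prime_three⟩
    · exact ⟨⟨by omega, h2⟩, h3⟩

theorem loc {p : ℕ} (hp : 5 ≤ p) : (1 - ((3 : ℕ) : ℝ) / p) * (1 - 1 / (p : ℝ))⁻¹ ^ 3 =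
    (p : ℝ) ^ 2 * (p - 3) / (p - 1) ^ 3 := by
  have h : (5 : ℝ) ≤ p := by exact_mod_cast hp
  have h1 : (p : ℝ) - 1 ≠ 0 := by
    have : 0 < (p : ℝ) - 1 := by linarith
    exact this.ne'
  have h0 : (p : ℝ) ≠ 0 := by
    have : 0 < (p : ℝ) := by linarith
    exact this.ne'
  have e : 1 - 1 / (p : ℝ) = (p - 1) / p := by field_simp
  rw [e, inv_div]
  push_cast
  field_simp

theorem PP_gen (H : Finset ℕ) (hc : H.card = 3) (h2 : res H 2 = 1) (h3 : res H 3 = 2)
    (h5 : ∀ p : ℕ, p.Prime → 5 ≤ p → res H p = 3) {t : ℕ} (ht : 3 ≤ t) : PP H t = 9 / 2 * K3 t := by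
  unfold PP K3
  rw [Pr_eq ht, prod_insert, prod_insert, h2, h3, hc]
  · have : ∏ p ∈ (Finset.Icc 5 t).filter Nat.Prime, ((1 - (res H p : ℝ) / p) * (1 - 1 / (p : ℝ))⁻¹ ^ 3) =
        ∏ p ∈ (Finset.Icc 5 t).filter Nat.Prime, ((p : ℝ) ^ 2 * (p - 3) / (p - 1) ^ 3) := by
      apply prod_congr rfl
      intro p hp
      rw [mem_filter, mem_Icc] at hp
      rw [h5 p hp.2 hp.1.1, loc hp.1.1]
    rw [this]
    norm_num
    ring
  · rw [mem_filter, mem_Icc]
    omega
  · rw [mem_insert, mem_filter, mem_Icc]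
    omega

theorem t_CO3 : Pool.Agent.U485.SM.S_CO3 := by
  obtain ⟨C, hC, hT⟩ := K3_tendsto
  refine ⟨C, hC, hT, ?_, ?_⟩
  · refine (hT.const_mul (9 / 2 : ℝ)).congr' ?_
    filter_upwards [eventually_ge_atTop 3] with t ht
    exact (PP_gen {0, 2, 6} (by decide) res26_two res26_three (fun p hp h => res26 hp h) ht).symm
  · refine (hT.const_mul (9 / 2 : ℝ)).congr' ?_
    filter_upwards [eventually_ge_atTop 3] with t ht
    exact (PP_gen {0, 4, 6} (by decide) res46_two res46_three (fun p hp h => res46 hp h) ht).symm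

end Pool.Agent.U165.HT.CO3
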